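import Pool.Agent.H25.RB

set_option autoImplicit false

namespace Pool.Agent.Results.MP_ac2b6c_lc.NPHard
open Pool.Agent.H11.PT Pool.Agent.H25.CB

/-- vertex names -/
abbrev V := ℕ × ℕ × ℕ

/-- the arcs of the list `E` leaving `X` -/
def outArcs (E : List (V × V)) (X : Set V) : Set (V × V) := {e | e ∈ E ∧ e.1 ∈ X ∧ e.2 ∉ X}

/-- the instance is (vertices, red arcs, blue arcs, r, b) -/
def RedBlue (y : List V × List (V × V) × List (V × V) × ℕ × ℕ) : Prop :=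
  ((∀ e ∈ y.2.1 ++ y.2.2.1, e.1 ≠ e.2 ∧ e.1 ∈ y.1 ∧ e.2 ∈ y.1) ∧ ∀ e ∈ y.2.1, e ∉ y.2.2.1) ∧
  ∃ X : Set V, X.Nonempty ∧ X ⊂ {v | v ∈ y.1} ∧
    (outArcs y.2.1 X).ncard ≤ y.2.2.2.1 ∧ (outArcs y.2.2.1 X).ncard ≤ y.2.2.2.2

def vs (y : I3) : List V := ((List.range (y.1 + 2)).flatMap fun i => [(0, i, 0), (1, i, 0), (3, i, 0)])
  ++ (List.range y.1 ×ˢ List.range y.1).map fun p => (2, p)

def red1 (y : I3) : List (V × V) := red0 y ++ ((vs y ×ˢ List.range (y.1 + 2)).flatMap fun p =>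
  [(p.1, (0, p.2, 0)), ((3, p.2, 0), p.1)]).filter fun e => decide (¬ e.1 = e.2)

theorem mem_vs {y : I3} {x : V} : x ∈ vs y ↔ (∃ i < y.1 + 2, x = (0, i, 0) ∨ x = (1, i, 0) ∨
    x = (3, i, 0)) ∨ ∃ u < y.1, ∃ v < y.1, x = (2, u, v) := by
  simp [vs, and_assoc, eq_comm]

theorem mem_red1 {y : I3} {e : V × V} : e ∈ red1 y ↔ e ∈ red0 y ∨ (∃ x ∈ vs y, ∃ i < y.1 + 2,
    e = (x, (0, i, 0)) ∨ e = ((3, i, 0), x)) ∧ e.1 ≠ e.2 := by
  simp [red1, and_assoc]

theorem fin (E : List (V × V)) (X : Set V) : (outArcs E X).Finite :=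
  E.finite_toSet.subset fun _ h => h.1

theorem many {S : Set (V × V)} (hS : S.Finite) {n j : ℕ} (hj : j < n + 2) (f : ℕ → V × V)
    (h1 : ∀ i < n + 2, i ≠ j → f i ∈ S) (h2 : ∀ a ≠ j, ∀ b ≠ j, f a = f b → a = b) : n < S.ncard := by
  have := Set.ncard_le_ncard_of_injOn (s := ((Finset.range (n + 2)).erase j : Set ℕ)) f
    (fun i hi => h1 i (by simp at hi; omega) (by simp at hi; omega))
    (fun a ha b hb => h2 a (by simp at ha; omega) b (by simp at hb; omega)) hS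
  rw [Set.ncard_coe_finset, Finset.card_erase_of_mem (by simpa), Finset.card_range] at this
  omega

theorem result : NPHard RedBlue := by
  classical
  refine (hard_IS.red (fun y => (vs y, red1 y, blue y, y.2.2, y.1 * y.1 - y.2.2 * y.2.2))
    (by unfold red1 vs; fun_prop) fun y hv => ?_).npHard
  refine ⟨⟨?_, ?_⟩, fun h => ?_, ?_⟩
  · intro e he
    rcases List.mem_append.1 he with h | h
    · rcases mem_red1.1 h with h | ⟨⟨x, hx, i, hi, rfl | rfl⟩, h⟩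
      · obtain ⟨u, hu, rfl⟩ := mem_red0.1 h
        simp [mem_vs]; omega
      · exact ⟨h, hx, by simp [mem_vs, hi]⟩
      · exact ⟨h, by simp [mem_vs, hi], hx⟩
    · obtain ⟨u, hu, v, hv, rfl | rfl | rfl⟩ := mem_blue.1 h <;> cases g : good y u v <;>
        simp [tg, g, mem_vs, hu, hv] <;> omega
  · intro e he hb
    obtain ⟨u, -, v, -, rfl | rfl | rfl⟩ := mem_blue.1 hb <;> cases g : good y u v <;>
      simp [tg, g, mem_red1, mem_red0] at he
  · obtain ⟨X, h1, h2, h3, h4⟩ := complete y hv h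
    refine ⟨X ∩ {v | v ∈ vs y}, ⟨(0, 0, 0), h1 0, by simp [mem_vs]⟩, ⟨Set.inter_subset_right,
      fun h => h2 0 (h (by simp [mem_vs])).1⟩, le_trans (Set.ncard_le_ncard ?_ ?_) h3,
      le_trans (Set.ncard_le_ncard ?_ ?_) h4⟩
    · rintro e ⟨a, b, c⟩
      rcases mem_red1.1 a with a | ⟨⟨x, hx, i, hi, rfl | rfl⟩, h⟩
      · refine ⟨b.1, fun d => c ⟨d, ?_⟩, .inl a⟩
        obtain ⟨u, hu, rfl⟩ := mem_red0.1 a
        simp [mem_vs]
      · exact (c ⟨h1 i, by simp [mem_vs, hi]⟩).elim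
      · exact (h2 i b.1).elim
    · exact (red0 y ++ (red0 y).map Prod.swap).finite_toSet.subset fun e h =>
        List.mem_append.2 (h.2.2.imp id fun h => List.mem_map.2 ⟨_, h, rfl⟩)
    · rintro e ⟨a, b, c⟩
      refine ⟨b.1, fun d => c ⟨d, ?_⟩, .inl a⟩
      obtain ⟨u, hu, v, hv, rfl | rfl | rfl⟩ := mem_blue.1 a <;> cases g : good y u v <;>
        simp [tg, g, mem_vs, hu, hv] <;> omega
    · exact (blue y ++ (blue y).map Prod.swap).finite_toSet.subset fun e h =>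
        List.mem_append.2 (h.2.2.imp id fun h => List.mem_map.2 ⟨_, h, rfl⟩)
  · rintro ⟨X, ⟨x, hx⟩, hX, h3, h4⟩
    obtain ⟨z, z1, z2⟩ := Set.exists_of_ssubset hX
    have h5 := h3.trans hv.1
    refine sound y hv X (by_contra fun h => ?_) (fun h => ?_) _ _ (fin _ X) (fin _ X)
      (fun e a b c => ⟨mem_red1.2 (.inl a), b, c⟩) (fun e a b c => ⟨a, b, c⟩) h3 h4
    · refine (many (fin (red1 y) X) (j := 0) (by omega) (fun i => if (0, i, 0) ∈ X then
        ((0, i, 0), (0, 0, 0)) else (x, (0, i, 0))) (fun i hi h0 => ?_) fun a ha b hb => ?_).not_ge h5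
      · split_ifs with e
        · exact ⟨mem_red1.2 (.inr ⟨⟨_, hX.1 e, 0, by omega, .inl rfl⟩, by simpa⟩), e, h⟩
        · exact ⟨mem_red1.2 (.inr ⟨⟨_, hX.1 hx, i, hi, .inl rfl⟩, fun d : x = (0, i, 0) => e (d ▸ hx)⟩), hx, e⟩
      · split_ifs <;> simp <;> omega
    · refine (many (fin (red1 y) X) (j := 0) (by omega) (fun i => if (3, i, 0) ∈ X then
        ((3, i, 0), z) else ((3, 0, 0), (3, i, 0))) (fun i hi h0 => ?_) fun a ha b hb => ?_).not_ge h5
      · split_ifs with e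
        · exact ⟨mem_red1.2 (.inr ⟨⟨_, z1, i, hi, .inr rfl⟩, fun d : _ = z => z2 (d ▸ e)⟩), e, z2⟩
        · exact ⟨mem_red1.2 (.inr ⟨⟨_, by simp [mem_vs, hi], 0, by omega, .inr rfl⟩,
            by simpa using h0.symm⟩), h, e⟩
      · split_ifs <;> simp <;> omega

end Pool.Agent.Results.MP_ac2b6c_lc.NPHard
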